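import Pool.Agent.H44.Pak5

open Filter Topology Pool.Agent.H44.Pak

theorem Pool.Agent.Results.MP_ec2323_pr.NoCutoff.result :
    ∃ (V : ℕ → Type) (_ : ∀ n, Fintype (V n)) (_ : ∀ n, DecidableEq (V n))
      (Γ : ∀ n, SimpleGraph (V n)) (τ : ℕ → ℝ),
      Tendsto (fun n => Fintype.card (V n)) atTop atTop ∧
      (∀ n, (Γ n).Connected) ∧
      (∀ n x, ∃ t, 0 ≤ t ∧ distFrom (Γ n) x t ≤ 1 / 4) ∧
      (∀ n, IsMedian (Γ n) (τ n) ∧ ∀ x, tauFrom (Γ n) x = τ n) ∧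
      Tendsto (fun n => τ n / (1 / gapOf (Γ n))) atTop atTop ∧
      ¬ ∀ ε ∈ Set.Ioo (0 : ℝ) 1,
        Tendsto (fun n => mass (Γ n) {x | 1 - ε < distFrom (Γ n) x ((1 - ε) * τ n)}) atTop (𝓝 1) ∧
        Tendsto (fun n => mass (Γ n) {x | distFrom (Γ n) x ((1 + ε) * τ n) < ε}) atTop (𝓝 1) := by
  choose G i1 i2 i3 S θ h using exists_good
  have hr : ∀ n : ℕ, 11 ≤ n + 11 := fun n => by omega
  refine ⟨G, i1, i2, fun n => SimpleGraph.circulantGraph (S n : Set (G n)),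
    fun n => tauFrom (SimpleGraph.circulantGraph (S n : Set (G n))) 0,
    card_tendsto fun n => (h n).card, fun n => (h n).connected (hr n), fun n => (h n).reach,
    fun n => ⟨(h n).isMedian, (h n).tau_shift⟩, tendsto_of_ge fun n => (h n).prod_cont (hr n),
    fun hc => ?_⟩
  have h1 := (hc (1 / 4) ⟨by norm_num, by norm_num⟩).1
  simp only [fun n => (h n).mass_zero (hr n)] at h1
  exact zero_ne_one (tendsto_nhds_unique tendsto_const_nhds h1)
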